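import Pool.Agent.Results.MP_351138_al.CharacteristicTwo
import Pool.Agent.K1H2.CM.Fin

/-!
MP_351138_al, Q1 (full negative answer): over every field there is a symmetric tensor of order
three whose rank is smaller than its symmetric rank.
-/

universe u

noncomputable section

namespace Pool.Agent.Results.MP_351138_al.EveryField

variable {F : Type u} [Field F] {I : Type}

/-- simple tensor: `T i j k = a i * b j * c k` -/
def IsSimple (T : I → I → I → F) : Prop :=
  ∃ a b c : I → F, ∀ i j k, T i j k = a i * b j * c k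

/-- symmetric simple tensor: `T i j k = v i * v j * v k` -/
def IsSymmetricSimple (T : I → I → I → F) : Prop :=
  ∃ v : I → F, ∀ i j k, T i j k = v i * v j * v k

/-- symmetric tensor: invariant under all permutations of the three indices -/
def IsSymmetric (T : I → I → I → F) : Prop :=
  ∀ i j k, T i j k = T j i k ∧ T i j k = T i k j

/-- `rank_F T`: the least `r` such that `T` is a sum of `r` simple tensors -/
def rank (T : I → I → I → F) : ℕ∞ :=
  sInf {x : ℕ∞ | ∃ r : ℕ, x = (r : ℕ∞) ∧ ∃ S : Fin r → I → I → I → F,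
    (∀ s, IsSimple (S s)) ∧ T = ∑ s, S s}

/-- `srank_F T`: the least `r` such that `T = ∑ s, c s • S s` with `r` symmetric simple tensors
`S s` and scalars `c s`, and `⊤` if there is no such expression -/
def srank (T : I → I → I → F) : ℕ∞ :=
  sInf {x : ℕ∞ | ∃ r : ℕ, x = (r : ℕ∞) ∧ ∃ (c : Fin r → F) (S : Fin r → I → I → I → F),
    (∀ s, IsSymmetricSimple (S s)) ∧ T = ∑ s, c s • S s}

open Pool.Agent.K1H2.CM

theorem gadget (h2 : (2 : F) ≠ 0) (α1 α2 β1 β2 γ1 γ2 : F) (h0 : α1 * β1 * γ1 ≠ 0)
    (h1 : α2 * β2 * γ2 ≠ 0) (h3 : (α1 + α2) * (β1 + β2) * (γ1 + γ2) ≠ 0)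
    (hpar : ∀ y : F, ¬ (y ^ 3 * (α1 * β1 * γ1) = α2 * β2 * γ2 ∧
      (1 + y) ^ 3 * (α1 * β1 * γ1) = (α1 + α2) * (β1 + β2) * (γ1 + γ2))) :
    ∃ (I : Type) (_ : Fintype I) (T : I → I → I → F), IsSymmetric T ∧ rank T < srank T := by
  obtain ⟨p, n, hK, hn, hsp⟩ := exists_family F
  obtain ⟨t, ht⟩ : ∃ t : Fin 3 → F,
    t = ![α1 * β1 * γ1, α2 * β2 * γ2, (α1 + α2) * (β1 + β2) * (γ1 + γ2)] := ⟨_, rfl⟩
  refine ⟨Jt ⊕ Fin p, inferInstance, TT t n, TT_symm t n, ?_⟩
  obtain ⟨a, b, c, habc⟩ := short h2 n hsp α1 α2 β1 β2 γ1 γ2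
  rw [← ht] at habc
  have hr : rank (TT t n) ≤ ((3 * p + 1 : ℕ) : ℕ∞) := by
    have h := CharacteristicTwo.rank_le (TT t n) a b c habc
    have hc : Fintype.card (Fin p ⊕ Fin p ⊕ Fin p ⊕ Fin 1) = 3 * p + 1 := by
      simp only [Fintype.card_sum, Fintype.card_fin]; omega
    rw [hc] at h
    exact h
  have hs : ((3 * p + 2 : ℕ) : ℕ∞) ≤ srank (TT t n) := by
    have h : ((3 * p + 2 : ℕ) : ℕ∞) ≤ CharacteristicTwo.srank (TT t n) + ((0 : ℕ) : ℕ∞) := by
      apply CharacteristicTwo.le_srank
      intro r l v hv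
      rw [add_zero]
      refine no_short h2 n hK hn t ?_ ?_ r l v hv
      · intro r
        rw [ht]
        fin_cases r
        · exact h0
        · exact h1
        · exact h3
      · intro y
        rw [ht]
        exact hpar y
    have h' : ((3 * p + 2 : ℕ) : ℕ∞) ≤ CharacteristicTwo.srank (TT t n) := by simpa using h
    exact h'
  refine lt_of_le_of_lt hr (lt_of_lt_of_le ?_ hs)
  exact_mod_cast (by omega : 3 * p + 1 < 3 * p + 2)

theorem odd_large (h2 : (2 : F) ≠ 0) (x : F) (hx0 : x ≠ 0) (hx1 : x ≠ 1) (hxm : x ≠ -1) :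
    ∃ (I : Type) (_ : Fintype I) (T : I → I → I → F), IsSymmetric T ∧ rank T < srank T := by
  have hx1' : 1 + x ≠ 0 := fun h => hxm (by linear_combination h)
  by_cases h3 : (3 : F) = 0
  · refine gadget h2 1 1 1 x 1 x (by simp) ?_ ?_ ?_
    · exact mul_ne_zero (mul_ne_zero one_ne_zero hx0) hx0
    · refine mul_ne_zero (mul_ne_zero ?_ hx1') hx1'
      intro h; apply h2; linear_combination h
    · rintro y ⟨e1, e2⟩
      have : (x - 1) ^ 2 = 0 := by
        linear_combination e1 - e2 + (y + y ^ 2 - 2 * x) * h3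
      exact hx1 (sub_eq_zero.1 (pow_eq_zero_iff (two_ne_zero) |>.1 this))
  · refine gadget h2 1 1 1 1 1 x (by simp) ?_ ?_ ?_
    · exact mul_ne_zero (mul_ne_zero one_ne_zero one_ne_zero) hx0
    · refine mul_ne_zero (mul_ne_zero ?_ ?_) hx1'
      · intro h; apply h2; linear_combination h
      · intro h; apply h2; linear_combination h
    · rintro y ⟨e1, e2⟩
      have : (3 : F) * ((y - 1) ^ 2 * (y + 1)) = 0 := by
        linear_combination 4 * e1 - e2
      rcases mul_eq_zero.1 this with h | h
      · exact h3 h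
      · rcases mul_eq_zero.1 h with h | h
        · have hy : y = 1 := sub_eq_zero.1 (pow_eq_zero_iff (two_ne_zero) |>.1 h)
          apply hx1
          rw [hy] at e1
          linear_combination -e1
        · have hy : y = -1 := by linear_combination h
          apply hxm
          rw [hy] at e1
          linear_combination -e1

/-- For every field `F` there is a symmetric tensor of order three over `F` whose rank is smaller
than its symmetric rank; so no field has the property of Q1. -/
theorem result : ∀ (F : Type u) [Field F],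
    ∃ (I : Type) (_ : Fintype I) (T : I → I → I → F), IsSymmetric T ∧ rank T < srank T := by
  intro F _
  obtain ⟨-, c2, c3⟩ := CharacteristicTwo.result.{u}
  by_cases h2 : (2 : F) = 0
  · have hchar : CharP F 2 := CharTwo.of_one_ne_zero_of_two_eq_zero one_ne_zero h2
    obtain ⟨I, hI, T, -, hs, h5, h6⟩ := c2 F 1
    refine ⟨I, hI, T, hs, ?_⟩
    have h5' : rank T ≤ ((5 : ℕ) : ℕ∞) := by
      have : CharacteristicTwo.rank T ≤ ((5 : ℕ) : ℕ∞) := by simpa using h5
      exact this
    have h6' : ((6 : ℕ) : ℕ∞) ≤ srank T := by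
      have : ((6 : ℕ) : ℕ∞) ≤ CharacteristicTwo.srank T := by simpa using h6
      exact this
    refine lt_of_le_of_lt h5' (lt_of_lt_of_le ?_ h6')
    exact_mod_cast (by norm_num : 5 < 6)
  · by_cases hx : ∃ x : F, x ≠ 0 ∧ x ≠ 1 ∧ x ≠ -1
    · obtain ⟨x, h0, h1, hm⟩ := hx
      exact odd_large h2 x h0 h1 hm
    · push Not at hx
      have h11 : (1 : F) ≠ -1 := by
        intro h; apply h2; linear_combination h
      have hcard : Nat.card F = 3 := by
        classical
        have hu : (Set.univ : Set F) = {0, 1, -1} := by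
          ext x
          simp only [Set.mem_univ, Set.mem_insert_iff, Set.mem_singleton_iff, true_iff]
          by_cases h0 : x = 0
          · exact Or.inl h0
          · by_cases h1 : x = 1
            · exact Or.inr (Or.inl h1)
            · exact Or.inr (Or.inr (hx x h0 h1))
        rw [← Set.ncard_univ, hu, Set.ncard_insert_of_notMem, Set.ncard_pair h11]
        simp only [Set.mem_insert_iff, Set.mem_singleton_iff, not_or]
        refine ⟨zero_ne_one, ?_⟩
        intro h
        exact one_ne_zero (neg_eq_zero.1 h.symm)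
      obtain ⟨T, hs, hlt⟩ := c3 F hcard
      exact ⟨Fin 2, inferInstance, T, hs, hlt⟩

end Pool.Agent.Results.MP_351138_al.EveryField
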